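import Mathlib
import Pool.Agent.Results.MP_a69704_mp.NotConvex
import Pool.Agent.Y24.TF.Low

set_option autoImplicit false

open MeasureTheory Filter Topology Set
open scoped ENNReal NNReal ContDiff

namespace Pool.Agent.Results.MP_a69704_mp.NotConvexAllNuclei

/-- Three dimensional Euclidean space. -/
abbrev R3 := EuclideanSpace ℝ (Fin 3)

/-- `ρ` is an admissible density and `g` is the weak gradient of `ψ = ρ^{1/2}`:
`ρ ≥ 0`, `ψ ∈ L⁶`, `ρ ∈ L^p` and `g = ∇ψ ∈ L²` in the sense of distributions. -/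
structure Admissible (p : ℝ) (ρ : R3 → ℝ) (g : R3 → R3) : Prop where
  nonneg : ∀ x, 0 ≤ ρ x
  sqrt_memLp : MemLp (fun x => √(ρ x)) 6
  integrable_rpow : Integrable (fun x => ρ x ^ p)
  grad_memLp : MemLp g 2
  grad_weak : ∀ φ : R3 → ℝ, ContDiff ℝ ∞ φ → HasCompactSupport φ → ∀ v : R3,
    ∫ x, √(ρ x) * fderiv ℝ φ x v = -∫ x, inner ℝ (g x) v * φ x

/-- `J(ρ) = (γ/p) ρ^p - (3 C_e/4) ρ^{4/3}`. -/
noncomputable def J (γ Ce p : ℝ) (ρ : ℝ) : ℝ :=
  γ / p * ρ ^ p - 3 * Ce / 4 * ρ ^ ((4 : ℝ) / 3)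

/-- The functional without nuclei:
`𝓔₀(ρ) = A ∫ |∇ρ^{1/2}|² + ∫ J(ρ) + D(ρ,ρ)`; `g` is the weak gradient of `ρ^{1/2}`. -/
noncomputable def freeEnergy (A γ Ce p : ℝ) (ρ : R3 → ℝ) (g : R3 → R3) : ℝ :=
  A * (∫ x, ‖g x‖ ^ 2) + (∫ x, J γ Ce p (ρ x)) + 1 / 2 * (∫ x, ∫ y, ρ x * ρ y / ‖x - y‖)

/-- The TFDW functional `𝓔(ρ)`; the argument `g` is the weak gradient of `ρ^{1/2}`. -/
noncomputable def energy (A γ Ce p : ℝ) {k : ℕ} (z : Fin k → ℝ) (R : Fin k → R3)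
    (ρ : R3 → ℝ) (g : R3 → R3) : ℝ :=
  A * (∫ x, ‖g x‖ ^ 2) + (∫ x, J γ Ce p (ρ x))
    - (∫ x, (∑ j, z j / ‖x - R j‖) * ρ x)
    + 1 / 2 * (∫ x, ∫ y, ρ x * ρ y / ‖x - y‖)
    + ∑ i, ∑ j, (if i < j then z i * z j / ‖R i - R j‖ else 0)

/-- The set of energies `𝓔(ρ)` of the admissible `ρ` with `∫ ρ = lam`. -/
def energySet (A γ Ce p : ℝ) {k : ℕ} (z : Fin k → ℝ) (R : Fin k → R3) (lam : ℝ) : Set ℝ :=
  {e | ∃ (ρ : R3 → ℝ) (g : R3 → R3), Admissible p ρ g ∧ Integrable ρ ∧ ∫ x, ρ x = lam ∧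
    e = energy A γ Ce p z R ρ g}

/-- `E(lam)`, the infimum of `𝓔(ρ)` over admissible `ρ` with `∫ ρ = lam`. -/
noncomputable def E (A γ Ce p : ℝ) {k : ℕ} (z : Fin k → ℝ) (R : Fin k → R3) (lam : ℝ) : ℝ :=
  sInf (energySet A γ Ce p z R lam)

/-- The set of the values `A ∫ |∇ρ^{1/2}|² - ∫ V ρ` of the admissible `ρ` with `∫ ρ = 1`
(the quadratic form of the Schroedinger operator `-AΔ - V` at the unit vector `ρ^{1/2}`). -/
def formSet (A p : ℝ) {k : ℕ} (z : Fin k → ℝ) (R : Fin k → R3) : Set ℝ :=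
  {e | ∃ (ρ : R3 → ℝ) (g : R3 → R3), Admissible p ρ g ∧ Integrable ρ ∧ ∫ x, ρ x = 1 ∧
    e = A * (∫ x, ‖g x‖ ^ 2) - ∫ x, (∑ j, z j / ‖x - R j‖) * ρ x}

/-- The lowest energy of one electron in the field of the nuclei: the infimum of the quadratic
form of `-AΔ - V` over the admissible `ρ` with `∫ ρ = 1`. -/
noncomputable def oneElectron (A p : ℝ) {k : ℕ} (z : Fin k → ℝ) (R : Fin k → R3) : ℝ :=
  sInf (formSet A p z R)

/-! ### Conversions and scaling -/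

open Pool.Agent.Y24.TF

lemma toTFDW {p : ℝ} {ρ : R3 → ℝ} {g : R3 → R3} (h : Admissible p ρ g) (hi : Integrable ρ) :
    Pool.Agent.Helper149.TFDW.Admissible p ρ g :=
  ⟨h.nonneg, hi, h.integrable_rpow, h.grad_memLp, h.grad_weak⟩

lemma ofNC {p : ℝ} {ρ : R3 → ℝ} {g : R3 → R3}
    (h : Pool.Agent.Results.MP_a69704_mp.NotConvex.Admissible p ρ g) : Admissible p ρ g :=
  ⟨h.nonneg, h.sqrt_memLp, h.integrable_rpow, h.grad_memLp, h.grad_weak⟩

lemma scale_adm {p : ℝ} {ρ : R3 → ℝ} {g : R3 → R3} (h : Admissible p ρ g)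
    {c : ℝ} (hc : 0 ≤ c) : Admissible p (fun x => c * ρ x) (fun x => √c • g x) := by
  have hs : ∀ x, √(c * ρ x) = √c * √(ρ x) := fun x => Real.sqrt_mul hc _
  refine ⟨fun x => mul_nonneg hc (h.nonneg x), ?_, ?_, ?_, ?_⟩
  · simp only [hs]
    exact h.sqrt_memLp.const_mul _
  · have h1 : (fun x => (c * ρ x) ^ p) = fun x => c ^ p * ρ x ^ p := by
      funext x
      exact Real.mul_rpow hc (h.nonneg x)
    rw [h1]
    exact h.integrable_rpow.const_mul _
  · exact h.grad_memLp.const_smul (√c)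
  · intro φ hφ hφs v
    have h1 := h.grad_weak φ hφ hφs v
    have h2 : ∀ x, √(c * ρ x) * fderiv ℝ φ x v = √c * (√(ρ x) * fderiv ℝ φ x v) := by
      intro x
      rw [hs]
      ring
    have h3 : ∀ x, inner ℝ (√c • g x) v * φ x = √c * (inner ℝ (g x) v * φ x) := by
      intro x
      rw [real_inner_smul_left]
      ring
    simp only [h2, h3]
    rw [integral_const_mul, integral_const_mul, h1]
    ring

lemma zero_adm {p : ℝ} (hp : 4 / 3 < p) : Admissible p (fun _ => 0) (fun _ => 0) := by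
  refine ⟨fun _ => le_rfl, ?_, ?_, MemLp.zero, ?_⟩
  · simp
  · have : (fun _ : R3 => (0:ℝ) ^ p) = fun _ => 0 := by
      funext
      exact Real.zero_rpow (by linarith)
    rw [this]
    exact integrable_zero _ _ _
  · intro φ _ _ v
    simp

/-! ### The attraction of the nuclei -/

section nuclei

variable {p : ℝ} {k : ℕ} {z : Fin k → ℝ} {R : Fin k → R3} {ρ : R3 → ℝ} {g : R3 → R3}

lemma sum_pos' (hk : 1 ≤ k) (hz : ∀ j, 0 < z j) : 0 < ∑ j, z j :=
  Finset.sum_pos (fun j _ => hz j) ⟨⟨0, hk⟩, Finset.mem_univ _⟩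

lemma attr_le (hp : 4 / 3 < p) (hk : 1 ≤ k) (hz : ∀ j, 0 < z j) (h : Admissible p ρ g)
    (hi : Integrable ρ) {A : ℝ} (hA : 0 < A) :
    ∫ x, (∑ j, z j / ‖x - R j‖) * ρ x
      ≤ (∑ j, z j) ^ 2 / (4 * A) * (∫ x, ρ x) + A * ∫ x, ‖g x‖ ^ 2 := by
  have hkey := fun a => coul hp (toTFDW h hi) a
  have hZ := sum_pos' hk hz
  set Z := ∑ j, z j with hZdef
  have hV : ∫ x, (∑ j, z j / ‖x - R j‖) * ρ x = ∑ j, z j * ∫ x, ρ x / ‖x - R j‖ := by
    have h1 : ∀ x, (∑ j, z j / ‖x - R j‖) * ρ x = ∑ j, z j * (ρ x / ‖x - R j‖) := by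
      intro x
      rw [Finset.sum_mul]
      refine Finset.sum_congr rfl fun j _ => ?_
      ring
    simp only [h1]
    rw [integral_finsetSum _ fun j _ => (hkey (R j)).1.const_mul _]
    simp only [integral_const_mul]
  rw [hV]
  have ht : 0 < Z / (2 * A) := by positivity
  set W := (Z / (2 * A) * (∫ x, ρ x) + (Z / (2 * A))⁻¹ * ∫ x, ‖g x‖ ^ 2) / 2 with hW
  have h2 : ∀ j, z j * ∫ x, ρ x / ‖x - R j‖ ≤ z j * W := by
    intro j
    refine mul_le_mul_of_nonneg_left ?_ (hz j).le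
    have := (hkey (R j)).2 _ ht
    rw [hW]
    linarith
  calc ∑ j, z j * ∫ x, ρ x / ‖x - R j‖ ≤ ∑ j, z j * W := Finset.sum_le_sum fun j _ => h2 j
    _ = Z * W := by rw [← Finset.sum_mul]
    _ = _ := by
      rw [hW]
      field_simp
      ring

lemma attr_nonneg (hz : ∀ j, 0 < z j) (h : Admissible p ρ g) :
    0 ≤ ∫ x, (∑ j, z j / ‖x - R j‖) * ρ x :=
  integral_nonneg fun x => mul_nonneg
    (Finset.sum_nonneg fun j _ => div_nonneg (hz j).le (norm_nonneg _)) (h.nonneg x)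

lemma dd_nonneg (h : Admissible p ρ g) : 0 ≤ ∫ x, ∫ y, ρ x * ρ y / ‖x - y‖ :=
  integral_nonneg fun x => integral_nonneg fun y =>
    div_nonneg (mul_nonneg (h.nonneg x) (h.nonneg y)) (norm_nonneg _)

/-- The form of `-AΔ - V` is bounded below by `-Z²/(4A)`. -/
lemma form_ge (hp : 4 / 3 < p) (hk : 1 ≤ k) (hz : ∀ j, 0 < z j) (h : Admissible p ρ g)
    (hi : Integrable ρ) {A : ℝ} (hA : 0 < A) :
    -((∑ j, z j) ^ 2 / (4 * A)) * (∫ x, ρ x)
      ≤ A * (∫ x, ‖g x‖ ^ 2) - ∫ x, (∑ j, z j / ‖x - R j‖) * ρ x := by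
  have := attr_le (R := R) hp hk hz h hi hA
  linarith

lemma formSet_bdd (hp : 4 / 3 < p) (hk : 1 ≤ k) (hz : ∀ j, 0 < z j) {A : ℝ} (hA : 0 < A) :
    ∀ e ∈ formSet A p z R, -((∑ j, z j) ^ 2 / (4 * A)) ≤ e := by
  rintro e ⟨ρ, g, h, hi, hm, rfl⟩
  have := form_ge (R := R) hp hk hz h hi hA
  rwa [hm, mul_one] at this

lemma oneElectron_le (hp : 4 / 3 < p) (hk : 1 ≤ k) (hz : ∀ j, 0 < z j) (h : Admissible p ρ g)
    (hi : Integrable ρ) {A : ℝ} (hA : 0 < A) (hm : 0 < ∫ x, ρ x) :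
    oneElectron A p z R * (∫ x, ρ x)
      ≤ A * (∫ x, ‖g x‖ ^ 2) - ∫ x, (∑ j, z j / ‖x - R j‖) * ρ x := by
  set m := ∫ x, ρ x with hmdef
  have hmi : 0 ≤ m⁻¹ := (inv_pos.mpr hm).le
  have h1 := scale_adm h hmi
  have h2 : oneElectron A p z R
      ≤ A * (∫ x, ‖√(m⁻¹) • g x‖ ^ 2) - ∫ x, (∑ j, z j / ‖x - R j‖) * (m⁻¹ * ρ x) := by
    refine csInf_le ⟨_, fun e he => formSet_bdd hp hk hz hA e he⟩
      ⟨_, _, h1, hi.const_mul _, ?_, rfl⟩
    rw [integral_const_mul, ← hmdef]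
    exact inv_mul_cancel₀ hm.ne'
  have h3 : ∫ x, ‖√(m⁻¹) • g x‖ ^ 2 = m⁻¹ * ∫ x, ‖g x‖ ^ 2 := by
    rw [← integral_const_mul]
    congr 1
    funext x
    rw [norm_smul, mul_pow, Real.norm_of_nonneg (Real.sqrt_nonneg _), Real.sq_sqrt hmi]
  have h4 : ∫ x, (∑ j, z j / ‖x - R j‖) * (m⁻¹ * ρ x)
      = m⁻¹ * ∫ x, (∑ j, z j / ‖x - R j‖) * ρ x := by
    rw [← integral_const_mul]
    congr 1
    funext x
    ring
  rw [h3, h4] at h2
  have h5 := mul_le_mul_of_nonneg_right h2 hm.le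
  refine h5.trans (le_of_eq ?_)
  have : m ≠ 0 := hm.ne'
  field_simp

end nuclei

/-! ### Lower bounds of the energy -/

section lower

variable {A γ Ce p : ℝ} {k : ℕ} {z : Fin k → ℝ} {R : Fin k → R3}

lemma energy_bdd (hA : 0 < A) (hγ : 0 < γ) (hCe : 0 < Ce) (hp : 4 / 3 < p) (hk : 1 ≤ k)
    (hz : ∀ j, 0 < z j) (lam : ℝ) : BddBelow (energySet A γ Ce p z R lam) := by
  refine ⟨-(Pool.Agent.Helper149.TFDW.alpha γ Ce p * lam)
    - (∑ j, z j) ^ 2 / (4 * (A / 2)) * lam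
    + ∑ i, ∑ j, (if i < j then z i * z j / ‖R i - R j‖ else 0), ?_⟩
  rintro e ⟨ρ, g, h, hi, rfl, rfl⟩
  have h1 := crude (by positivity : 0 < A / 2) hγ hCe hp (toTFDW h hi)
  have h2 := attr_le (R := R) hp hk hz h hi (by positivity : 0 < A / 2)
  have h3 := dd_nonneg h
  have h4 : ∫ x, J γ Ce p (ρ x) = ∫ x, Jf γ Ce p (ρ x) := rfl
  unfold energy
  rw [h4]
  linarith

lemma energy_small (hA : 0 < A) (hγ : 0 < γ) (hCe : 0 < Ce) (hp : 4 / 3 < p) (hk : 1 ≤ k)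
    (hz : ∀ j, 0 < z j) {η : ℝ} (hη : 0 < η) :
    ∃ m₀ : ℝ, 0 < m₀ ∧ ∀ (ρ : R3 → ℝ) (g : R3 → R3), Admissible p ρ g → Integrable ρ →
      0 < ∫ x, ρ x → ∫ x, ρ x ≤ m₀ →
      (oneElectron A p z R - η) * (∫ x, ρ x)
        + ∑ i, ∑ j, (if i < j then z i * z j / ‖R i - R j‖ else 0)
        ≤ energy A γ Ce p z R ρ g := by
  set h₀ := oneElectron A p z R with hh₀
  set Z := ∑ j, z j with hZ
  set Q := 2 * |h₀| + Z ^ 2 / A + 1 with hQ
  have hQ0 : 0 < Q := by positivity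
  set ε := min (1 / 2) (η / (2 * Q)) with hε
  have hε0 : 0 < ε := lt_min (by norm_num) (by positivity)
  have hε1 : ε ≤ 1 / 2 := min_le_left _ _
  have hε2 : ε * Q ≤ η / 2 := by
    calc ε * Q ≤ η / (2 * Q) * Q := mul_le_mul_of_nonneg_right (min_le_right _ _) hQ0.le
      _ = η / 2 := by field_simp
  obtain ⟨m₀, hm₀, hsm⟩ := small_mass (by positivity : 0 < ε * A) hγ hCe hp
    (by positivity : 0 < η / 2)
  refine ⟨m₀, hm₀, ?_⟩
  intro ρ g h hi hm hmle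
  have h1 := hsm ρ g (toTFDW h hi) hmle
  have h2 := attr_le (R := R) hp hk hz h hi (by positivity : 0 < A / 2)
  have h3 := dd_nonneg h
  have h4 : ∫ x, J γ Ce p (ρ x) = ∫ x, Jf γ Ce p (ρ x) := rfl
  have h5 := oneElectron_le (R := R) hp hk hz h hi hA hm
  rw [← hh₀] at h5
  rw [← hZ] at h2
  unfold energy
  rw [h4]
  set K := ∫ x, ‖g x‖ ^ 2 with hK
  set W := ∫ x, (∑ j, z j / ‖x - R j‖) * ρ x with hW
  set m := ∫ x, ρ x with hmdef
  set Y := A * K - W with hY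
  -- `A K ≤ 2 Y + Z² m / A`
  have h6 : A * K ≤ 2 * Y + Z ^ 2 / A * m := by
    have e1 : Z ^ 2 / (4 * (A / 2)) = Z ^ 2 / A / 2 := by
      field_simp
      ring
    rw [e1] at h2
    rw [hY]
    linarith
  have h7 : h₀ * m - η / 2 * m ≤ Y - ε * (A * K) := by
    have e1 := mul_le_mul_of_nonneg_left h6 hε0.le
    have e2 : (1 - 2 * ε) * (h₀ * m) ≤ (1 - 2 * ε) * Y :=
      mul_le_mul_of_nonneg_left h5 (by linarith)
    have e3 : ε * (2 * h₀ + Z ^ 2 / A) ≤ η / 2 := by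
      refine le_trans (mul_le_mul_of_nonneg_left ?_ hε0.le) hε2
      rw [hQ]
      have := le_abs_self h₀
      linarith
    have e4 := mul_le_mul_of_nonneg_right e3 hm.le
    nlinarith
  have h8 : Y - ε * (A * K) + (ε * A * K + ∫ x, Jf γ Ce p (ρ x))
      = A * K + (∫ x, Jf γ Ce p (ρ x)) - W := by
    rw [hY]
    ring
  linarith

end lower

/-! ### The criterion -/

section criterion

variable {A γ Ce p : ℝ} {k : ℕ} {z : Fin k → ℝ} {R : Fin k → R3}

lemma energy_zero (hp : 4 / 3 < p) :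
    energy A γ Ce p z R (fun _ => 0) (fun _ => 0)
      = ∑ i, ∑ j, (if i < j then z i * z j / ‖R i - R j‖ else 0) := by
  have hJ0 : J γ Ce p 0 = 0 := by
    unfold J
    rw [Real.zero_rpow (by linarith : p ≠ 0), Real.zero_rpow (by norm_num : (4:ℝ)/3 ≠ 0)]
    ring
  unfold energy
  simp [hJ0]

/-- `E(0) ≤ U`. -/
lemma E_zero_le (hA : 0 < A) (hγ : 0 < γ) (hCe : 0 < Ce) (hp : 4 / 3 < p) (hk : 1 ≤ k)
    (hz : ∀ j, 0 < z j) :
    E A γ Ce p z R 0 ≤ ∑ i, ∑ j, (if i < j then z i * z j / ‖R i - R j‖ else 0) :=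
  csInf_le (energy_bdd hA hγ hCe hp hk hz 0)
    ⟨fun _ => 0, fun _ => 0, zero_adm hp, integrable_zero _ _ _, by simp,
      (energy_zero hp).symm⟩

/-- `E(∫ρ) ≤ U + 𝓔₀(ρ)`. -/
lemma E_le_free (hA : 0 < A) (hγ : 0 < γ) (hCe : 0 < Ce) (hp : 4 / 3 < p) (hk : 1 ≤ k)
    (hz : ∀ j, 0 < z j) {ρ : R3 → ℝ} {g : R3 → R3} (h : Admissible p ρ g) (hi : Integrable ρ) :
    E A γ Ce p z R (∫ x, ρ x)
      ≤ (∑ i, ∑ j, (if i < j then z i * z j / ‖R i - R j‖ else 0)) + freeEnergy A γ Ce p ρ g := by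
  refine (csInf_le (energy_bdd hA hγ hCe hp hk hz _) ⟨ρ, g, h, hi, rfl, rfl⟩).trans ?_
  have := attr_nonneg (R := R) hz h
  unfold energy freeEnergy
  linarith

lemma trial_admissible' (hp : 4 / 3 < p) {ψ : R3 → ℝ} (hψ : ContDiff ℝ ∞ ψ)
    (hs : HasCompactSupport ψ) (h0 : ∀ x, 0 ≤ ψ x) :
    Admissible p (fun x => ψ x ^ 2) (NotConvex.grad ψ) ∧ Integrable (fun x => ψ x ^ 2) :=
  ⟨ofNC (NotConvex.trial_admissible hp hψ hs h0).1, (NotConvex.trial_admissible hp hψ hs h0).2⟩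

/-- there are admissible densities of every mass -/
lemma energy_nonempty (hp : 4 / 3 < p) {lam : ℝ} (hlam : 0 ≤ lam) :
    (energySet A γ Ce p z R lam).Nonempty := by
  obtain ⟨b, hb, hbs, hb0, hb1⟩ := NotConvex.exists_bump
  have hM : 0 < ∫ x, b x ^ 2 := by
    refine Continuous.integral_pos_of_hasCompactSupport_nonneg_nonzero (x := 0)
      (hb.continuous.pow 2) ?_ (fun x => by positivity) ?_
    · refine hbs.comp_left (g := fun t : ℝ => t ^ 2) ?_
      norm_num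
    · rw [hb1]; simp
  set M := ∫ x, b x ^ 2 with hMdef
  have h1 := trial_admissible' (p := p) hp (ψ := fun x => √(lam / M) * b x)
    (contDiff_const.mul hb) hbs.mul_left (fun x => mul_nonneg (Real.sqrt_nonneg _) (hb0 x))
  refine ⟨_, _, _, h1.1, h1.2, ?_, rfl⟩
  have h2 : ∀ x, (√(lam / M) * b x) ^ 2 = lam / M * b x ^ 2 := by
    intro x
    rw [mul_pow, Real.sq_sqrt (by positivity)]
  simp only [h2]
  rw [integral_const_mul, ← hMdef]
  field_simp

/-- **Criterion.** If `E` is convex on `[0,∞)` then the lowest energy of one electron in the field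
of the nuclei is at most the energy per electron of every density in the absence of nuclei. -/
theorem criterion (hA : 0 < A) (hγ : 0 < γ) (hCe : 0 < Ce) (hp : 4 / 3 < p) (hk : 1 ≤ k)
    (hz : ∀ j, 0 < z j) (hconv : ConvexOn ℝ (Set.Ici 0) (E A γ Ce p z R))
    {ρ : R3 → ℝ} {g : R3 → R3} (h : Admissible p ρ g) (hi : Integrable ρ)
    (hM : 0 < ∫ x, ρ x) :
    oneElectron A p z R * (∫ x, ρ x) ≤ freeEnergy A γ Ce p ρ g := by
  by_contra hcon
  push Not at hcon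
  set U : ℝ := ∑ i, ∑ j, (if i < j then z i * z j / ‖R i - R j‖ else 0) with hU
  set M := ∫ x, ρ x with hMdef
  set h₀ := oneElectron A p z R with hh₀
  set F := freeEnergy A γ Ce p ρ g with hF
  -- the gap
  set η := (h₀ - F / M) / 2 with hη
  have hgap : F / M < h₀ := by
    rw [div_lt_iff₀ hM]
    exact hcon
  have hη0 : 0 < η := by
    rw [hη]
    linarith
  obtain ⟨m₀, hm₀, hsm⟩ := energy_small (R := R) hA hγ hCe hp hk hz hη0
  set lam := min m₀ M with hlam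
  have hlam0 : 0 < lam := lt_min hm₀ hM
  have hlam1 : lam ≤ m₀ := min_le_left _ _
  have hlamM : lam ≤ M := min_le_right _ _
  have hElam : (h₀ - η) * lam + U ≤ E A γ Ce p z R lam := by
    refine le_csInf (energy_nonempty hp hlam0.le) ?_
    rintro e ⟨ρ', g', h', hi', hm', rfl⟩
    have := hsm ρ' g' h' hi' (by rw [hm']; exact hlam0) (by rw [hm']; exact hlam1)
    rwa [hm'] at this
  have hE0 : E A γ Ce p z R 0 ≤ U := E_zero_le hA hγ hCe hp hk hz
  have hEM : E A γ Ce p z R M ≤ U + F := E_le_free hA hγ hCe hp hk hz h hi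
  have hMne : M ≠ 0 := hM.ne'
  have ht0 : 0 ≤ lam / M := by positivity
  have ht1 : lam / M ≤ 1 := by
    rw [div_le_one hM]; exact hlamM
  have h1 := hconv.2 (Set.mem_Ici.mpr le_rfl : (0:ℝ) ∈ Set.Ici 0)
    (Set.mem_Ici.mpr hM.le : M ∈ Set.Ici (0:ℝ)) (by linarith : (0:ℝ) ≤ 1 - lam / M) ht0 (by ring)
  have h2 : (1 - lam / M) • (0:ℝ) + (lam / M) • M = lam := by
    simp only [smul_eq_mul]; field_simp; ring
  rw [h2] at h1
  simp only [smul_eq_mul] at h1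
  have h3 : (1 - lam / M) * E A γ Ce p z R 0 ≤ (1 - lam / M) * U :=
    mul_le_mul_of_nonneg_left hE0 (by linarith)
  have h4 : lam / M * E A γ Ce p z R M ≤ lam / M * (U + F) :=
    mul_le_mul_of_nonneg_left hEM ht0
  have h5 : lam / M * F = F / M * lam := by
    field_simp
  have h6 : (h₀ - η) * lam ≤ F / M * lam := by nlinarith
  have h7 : h₀ - η ≤ F / M := le_of_mul_le_mul_right h6 hlam0
  rw [hη] at h7
  linarith

end criterion

/-! ### Trial densities of low energy without nuclei -/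

/-- A fixed smooth bump with values in `[0,1]`. -/
lemma exists_bump1 : ∃ b : R3 → ℝ, ContDiff ℝ ∞ b ∧ HasCompactSupport b ∧ (∀ x, 0 ≤ b x) ∧
    (∀ x, b x ≤ 1) ∧ b 0 = 1 := by
  let b : ContDiffBump (0 : R3) := ⟨1, 2, one_pos, one_lt_two⟩
  exact ⟨b, b.contDiff, b.hasCompactSupport, fun x => b.nonneg, fun x => b.le_one,
    b.one_of_mem_closedBall (by simp [b.rIn_pos.le])⟩

/-- `J(ρ) ≤ -(3p-4)/(4(p-1)) C_e ρ^{4/3}` for `0 ≤ ρ ≤ ρ₀`. -/
lemma J_le {γ Ce p : ℝ} (hγ : 0 < γ) (hCe : 0 < Ce) (hp : 4 / 3 < p) {ρ : ℝ} (h0 : 0 ≤ ρ)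
    (h1 : ρ ^ (p - 4 / 3) ≤ Ce * p / (4 * γ * (p - 1))) :
    J γ Ce p ρ ≤ -(Ce * ((3 * p - 4) / (4 * (p - 1)))) * ρ ^ ((4:ℝ)/3) := by
  have hp1 : 0 < p - 1 := by linarith
  have hpp : 0 < p := by linarith
  have h2 : ρ ^ p ≤ Ce * p / (4 * γ * (p - 1)) * ρ ^ ((4:ℝ)/3) := by
    rcases eq_or_lt_of_le h0 with rfl | h0
    · rw [Real.zero_rpow hpp.ne', Real.zero_rpow (by norm_num : (4:ℝ)/3 ≠ 0)]
      simp
    · have e1 : ρ ^ p = ρ ^ (p - 4/3) * ρ ^ ((4:ℝ)/3) := by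
        rw [← Real.rpow_add h0]
        congr 1
        ring
      rw [e1]
      exact mul_le_mul_of_nonneg_right h1 (Real.rpow_nonneg h0.le _)
  unfold J
  have h3 := mul_le_mul_of_nonneg_left h2 (by positivity : 0 ≤ γ / p)
  have h4 : γ / p * (Ce * p / (4 * γ * (p - 1)) * ρ ^ ((4:ℝ)/3)) - 3 * Ce / 4 * ρ ^ ((4:ℝ)/3)
      = -(Ce * ((3 * p - 4) / (4 * (p - 1)))) * ρ ^ ((4:ℝ)/3) := by
    field_simp
    ring
  linarith

/-- Energy of the trial density `(v³ b(s x))²`. -/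
lemma trial_energy {A γ Ce p : ℝ} (hγ : 0 < γ) (hCe : 0 < Ce) (hp : 4 / 3 < p)
    {b : R3 → ℝ} (hb : ContDiff ℝ ∞ b) (hbs : HasCompactSupport b) (hb0 : ∀ x, 0 ≤ b x)
    (hb1 : ∀ x, b x ≤ 1) {q s : ℝ} (hq : 0 < q) (hs : 0 < s)
    (hqρ : (q ^ 2) ^ (p - 4 / 3) ≤ Ce * p / (4 * γ * (p - 1))) :
    (∫ x, (q * b (s • x)) ^ 2 = q ^ 2 * ((s ^ 3)⁻¹ * ∫ x, b x ^ 2)) ∧
    freeEnergy A γ Ce p (fun x => (q * b (s • x)) ^ 2) (NotConvex.grad fun x => q * b (s • x))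
      ≤ (s ^ 3)⁻¹ * (A * (q ^ 2 * s ^ 2 * ∫ x, ‖fderiv ℝ b x‖ ^ 2)
        - Ce * ((3 * p - 4) / (4 * (p - 1))) * ((q ^ 2) ^ ((4:ℝ)/3) *
            ∫ x, (b x ^ 2) ^ ((4:ℝ)/3))
        + 1 / 2 * (q ^ 4 * (s ^ 2)⁻¹ * ∫ x, ∫ y, b x ^ 2 * b y ^ 2 / ‖x - y‖)) := by
  have hpp : 0 < p := by linarith
  set T := ∫ x, ‖fderiv ℝ b x‖ ^ 2 with hT
  set Q := ∫ x, (b x ^ 2) ^ ((4:ℝ)/3) with hQ
  set D := ∫ x, ∫ y, b x ^ 2 * b y ^ 2 / ‖x - y‖ with hD
  set β := (3 * p - 4) / (4 * (p - 1)) with hβ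
  set ψ : R3 → ℝ := fun x => q * b (s • x) with hψ
  have hsc : ContDiff ℝ ∞ (fun x : R3 => s • x) := contDiff_const_smul s
  have hψd : ContDiff ℝ ∞ ψ := contDiff_const.mul (hb.comp hsc)
  have hψs : HasCompactSupport ψ := by
    have : HasCompactSupport (fun x => b (s • x)) := hbs.comp_smul hs.ne'
    exact this.mul_left
  have hψ0 : ∀ x, 0 ≤ ψ x := fun x => mul_nonneg hq.le (hb0 _)
  have hsq : ∀ x, ψ x ^ 2 = q ^ 2 * b (s • x) ^ 2 := fun x => by simp only [ψ]; ring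
  refine ⟨?_, ?_⟩
  · show ∫ x, ψ x ^ 2 = _
    simp only [hsq]
    rw [integral_const_mul, NotConvex.integral_scale s hs (fun x => b x ^ 2)]
  · -- the gradient term
    have hgrad : ∫ x, ‖NotConvex.grad ψ x‖ ^ 2 = (s ^ 3)⁻¹ * (q ^ 2 * s ^ 2 * T) := by
      have h1 : ∀ x, ‖NotConvex.grad ψ x‖ ^ 2 = q ^ 2 * s ^ 2 * ‖fderiv ℝ b (s • x)‖ ^ 2 := by
        intro x
        rw [NotConvex.norm_grad]
        have h2 : HasFDerivAt ψ (q • ((fderiv ℝ b (s • x)).comp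
            (s • ContinuousLinearMap.id ℝ R3))) x := by
          have h3 : HasFDerivAt (fun x : R3 => s • x) (s • ContinuousLinearMap.id ℝ R3) x :=
            (hasFDerivAt_id x).const_smul s
          exact (((hb.differentiable (by simp)) (s • x)).hasFDerivAt.comp x h3).const_mul q
        rw [h2.fderiv]
        have h4 : q • ((fderiv ℝ b (s • x)).comp (s • ContinuousLinearMap.id ℝ R3))
            = (q * s) • fderiv ℝ b (s • x) := by
          ext v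
          simp
          ring
        rw [h4, norm_smul, Real.norm_of_nonneg (by positivity)]
        ring
      simp only [h1]
      rw [integral_const_mul, NotConvex.integral_scale s hs (fun x => ‖fderiv ℝ b x‖ ^ 2), hT]
      ring
    have hi : ∀ r : ℝ, 0 < r → Integrable (fun x => (ψ x ^ 2) ^ r) := by
      intro r hr
      refine Continuous.integrable_of_hasCompactSupport
        ((hψd.continuous.pow 2).rpow_const fun x => Or.inr hr.le) ?_
      refine hψs.comp_left (g := fun t : ℝ => (t ^ 2) ^ r) ?_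
      rw [zero_pow two_ne_zero, Real.zero_rpow hr.ne']
    have hpow : ∫ x, (ψ x ^ 2) ^ ((4:ℝ)/3) = (s ^ 3)⁻¹ * ((q ^ 2) ^ ((4:ℝ)/3) * Q) := by
      have h1 : ∀ x, (ψ x ^ 2) ^ ((4:ℝ)/3) = (q ^ 2) ^ ((4:ℝ)/3) * (b (s • x) ^ 2) ^ ((4:ℝ)/3) := by
        intro x
        rw [hsq, Real.mul_rpow (by positivity) (by positivity)]
      simp only [h1]
      rw [integral_const_mul, NotConvex.integral_scale s hs (fun x => (b x ^ 2) ^ ((4:ℝ)/3)), hQ]
      ring
    have hJ : ∫ x, J γ Ce p (ψ x ^ 2) ≤ -(Ce * β) * ((s ^ 3)⁻¹ * ((q ^ 2) ^ ((4:ℝ)/3) * Q)) := by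
      have h1 : Integrable (fun x => J γ Ce p (ψ x ^ 2)) := by
        have := ((hi p hpp).const_mul (γ / p)).sub ((hi (4/3) (by norm_num)).const_mul (3 * Ce / 4))
        exact this
      have h2 : Integrable (fun x => -(Ce * β) * (ψ x ^ 2) ^ ((4:ℝ)/3)) :=
        (hi (4/3) (by norm_num)).const_mul _
      have h3 : ∫ x, J γ Ce p (ψ x ^ 2) ≤ ∫ x, -(Ce * β) * (ψ x ^ 2) ^ ((4:ℝ)/3) := by
        refine integral_mono h1 h2 fun x => J_le hγ hCe hp (by positivity) ?_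
        refine le_trans (Real.rpow_le_rpow (by positivity) ?_ (by linarith)) hqρ
        rw [hsq]
        have := pow_le_one₀ (n := 2) (hb0 (s • x)) (hb1 (s • x))
        exact mul_le_of_le_one_right (by positivity) this
      rw [integral_const_mul, hpow] at h3
      exact h3
    have hDD : ∫ x, ∫ y, ψ x ^ 2 * ψ y ^ 2 / ‖x - y‖ = (s ^ 3)⁻¹ * (q ^ 4 * (s ^ 2)⁻¹ * D) := by
      have h1 : ∀ x, ∫ y, ψ x ^ 2 * ψ y ^ 2 / ‖x - y‖
          = q ^ 4 * s * (s ^ 3)⁻¹ * ∫ y, b (s • x) ^ 2 * b y ^ 2 / ‖s • x - y‖ := by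
        intro x
        have h2 : ∀ y, ψ x ^ 2 * ψ y ^ 2 / ‖x - y‖
            = q ^ 4 * s * (b (s • x) ^ 2 * b (s • y) ^ 2 / ‖s • x - s • y‖) := by
          intro y
          rw [hsq, hsq, ← smul_sub, norm_smul, Real.norm_of_nonneg hs.le]
          rcases eq_or_ne (‖x - y‖) 0 with h0 | h0
          · simp [h0]
          · field_simp
        simp only [h2]
        rw [integral_const_mul,
          NotConvex.integral_scale s hs (fun y => b (s • x) ^ 2 * b y ^ 2 / ‖s • x - y‖)]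
        ring
      simp only [h1]
      rw [integral_const_mul,
        NotConvex.integral_scale s hs (fun x => ∫ y, b x ^ 2 * b y ^ 2 / ‖x - y‖), hD]
      field_simp
    show A * (∫ x, ‖NotConvex.grad ψ x‖ ^ 2) + (∫ x, J γ Ce p (ψ x ^ 2))
      + 1 / 2 * (∫ x, ∫ y, ψ x ^ 2 * ψ y ^ 2 / ‖x - y‖) ≤ _
    rw [hgrad, hDD]
    have h5 : A * ((s ^ 3)⁻¹ * (q ^ 2 * s ^ 2 * T))
        + -(Ce * β) * ((s ^ 3)⁻¹ * ((q ^ 2) ^ ((4:ℝ)/3) * Q))
        + 1 / 2 * ((s ^ 3)⁻¹ * (q ^ 4 * (s ^ 2)⁻¹ * D))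
        = (s ^ 3)⁻¹ * (A * (q ^ 2 * s ^ 2 * T) - Ce * β * ((q ^ 2) ^ ((4:ℝ)/3) * Q)
          + 1 / 2 * (q ^ 4 * (s ^ 2)⁻¹ * D)) := by ring
    linarith

/-- For every `p` there is `c > 0` such that without nuclei there is a density whose energy per
electron is at most `-c min(C_e³/A, C_e (C_e/γ)^{1/(3p-4)})`. -/
theorem exists_free {p : ℝ} (hp : 4 / 3 < p) :
    ∃ c : ℝ, 0 < c ∧ ∀ A γ Ce W : ℝ, 0 < A → 0 < γ → 0 < Ce →
      W ≤ c * Ce ^ 3 → W ≤ c * (A * Ce * (Ce / γ) ^ (1 / (3 * p - 4))) →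
      ∃ (ρ : R3 → ℝ) (g : R3 → R3), Admissible p ρ g ∧ Integrable ρ ∧ 0 < ∫ x, ρ x ∧
        freeEnergy A γ Ce p ρ g ≤ -(W / A) * ∫ x, ρ x := by
  have hpp : 0 < p := by linarith
  have hp1 : 0 < p - 1 := by linarith
  have hp34 : 0 < 3 * p - 4 := by linarith
  obtain ⟨b, hb, hbs, hb0, hb1, hbv⟩ := exists_bump1
  set T := ∫ x, ‖fderiv ℝ b x‖ ^ 2 with hT
  set Q := ∫ x, (b x ^ 2) ^ ((4:ℝ)/3) with hQ
  set D := ∫ x, ∫ y, b x ^ 2 * b y ^ 2 / ‖x - y‖ with hD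
  have hpos : ∀ q : ℝ, 0 < q → 0 < ∫ x, (b x ^ 2) ^ q := by
    intro q hq
    refine Continuous.integral_pos_of_hasCompactSupport_nonneg_nonzero (x := 0)
      ((hb.continuous.pow 2).rpow_const fun x => Or.inr hq.le) ?_ (fun x => by positivity) ?_
    · refine hbs.comp_left (g := fun t : ℝ => (t ^ 2) ^ q) ?_
      rw [zero_pow two_ne_zero, Real.zero_rpow hq.ne']
    · rw [hbv]; simp
  have hQ0 : 0 < Q := hpos _ (by norm_num)
  have hT0 : 0 ≤ T := integral_nonneg fun x => by positivity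
  have hD0 : 0 ≤ D := integral_nonneg fun x => integral_nonneg fun y => by positivity
  set mb := ∫ x, b x ^ 2 with hmb
  have hmb0 : 0 < mb := by
    have := hpos 1 one_pos
    simpa using this
  set β := (3 * p - 4) / (4 * (p - 1)) with hβ
  have hβ0 : 0 < β := by positivity
  set B := T + D / 2 + 1 with hB
  have hB0 : 0 < B := by positivity
  set δ := β * Q / (2 * B) with hδ
  have hδ0 : 0 < δ := by positivity
  set κ₀ := (p / (4 * (p - 1))) ^ (1 / (3 * p - 4)) with hκ₀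
  have hκ₀0 : 0 < κ₀ := Real.rpow_pos_of_pos (by positivity) _
  set c := β * Q / (2 * mb) * min κ₀ (δ ^ 2) with hc
  have hmin0 : 0 < min κ₀ (δ ^ 2) := lt_min hκ₀0 (by positivity)
  refine ⟨c, by positivity, ?_⟩
  intro A γ Ce W hA hγ hCe hW1 hW2
  -- `r = ρ₀^{1/3}`
  set r := (Ce * p / (4 * γ * (p - 1))) ^ (1 / (3 * p - 4)) with hr
  have hr0 : 0 < r := Real.rpow_pos_of_pos (by positivity) _
  have hrκ : r = (Ce / γ) ^ (1 / (3 * p - 4)) * κ₀ := by
    rw [hr, hκ₀, ← Real.mul_rpow (by positivity) (by positivity)]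
    congr 1
    field_simp
  have hsA : 0 < √A := Real.sqrt_pos.mpr hA
  have hsA2 : √A * √A = A := Real.mul_self_sqrt hA.le
  set v := min (√r) (δ * Ce / √A) with hv
  have hv0 : 0 < v := lt_min (Real.sqrt_pos.mpr hr0) (by positivity)
  have hv1 : v ≤ √r := min_le_left _ _
  have hv2 : v ≤ δ * Ce / √A := min_le_right _ _
  set q := v ^ 3 with hq
  have hq0 : 0 < q := by positivity
  set s := √(q / √A) with hs
  have hs0 : 0 < s := Real.sqrt_pos.mpr (by positivity)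
  have hs2 : s ^ 2 = q / √A := Real.sq_sqrt (by positivity)
  -- `q² ≤ ρ₀`
  have hv2r : v ^ 2 ≤ r := by
    have := pow_le_pow_left₀ hv0.le hv1 2
    rwa [Real.sq_sqrt hr0.le] at this
  have hq2 : q ^ 2 = (v ^ 2) ^ (3:ℝ) := by
    rw [show (3:ℝ) = ((3:ℕ):ℝ) by norm_num, Real.rpow_natCast, hq]
    ring
  have hqρ : (q ^ 2) ^ (p - 4 / 3) ≤ Ce * p / (4 * γ * (p - 1)) := by
    rw [hq2, ← Real.rpow_mul (by positivity)]
    have h1 : (v ^ 2) ^ (3 * (p - 4 / 3)) ≤ r ^ (3 * (p - 4 / 3)) :=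
      Real.rpow_le_rpow (by positivity) hv2r (by linarith)
    refine h1.trans (le_of_eq ?_)
    rw [hr, ← Real.rpow_mul (by positivity)]
    have : 1 / (3 * p - 4) * (3 * (p - 4 / 3)) = 1 := by
      rw [show 3 * (p - 4 / 3) = 3 * p - 4 by ring]
      field_simp
    rw [this, Real.rpow_one]
  have hq43 : (q ^ 2) ^ ((4:ℝ)/3) = q ^ 2 * v ^ 2 := by
    rw [hq2, ← Real.rpow_mul (by positivity)]
    rw [show (3:ℝ) * (4 / 3) = 3 + 1 by norm_num, Real.rpow_add (by positivity), Real.rpow_one]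
  obtain ⟨hmass, hen⟩ := trial_energy (A := A) hγ hCe hp hb hbs hb0 hb1 hq0 hs0 hqρ
  have hadm := trial_admissible' (p := p) hp (ψ := fun x => q * b (s • x))
    (contDiff_const.mul (hb.comp (contDiff_const_smul s)))
    (by
      have : HasCompactSupport (fun x => b (s • x)) := hbs.comp_smul hs0.ne'
      exact this.mul_left)
    (fun x => mul_nonneg hq0.le (hb0 _))
  refine ⟨_, _, hadm.1, hadm.2, ?_, ?_⟩
  · rw [hmass]
    positivity
  · rw [hmass]
    refine hen.trans ?_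
    rw [← hT, ← hQ, ← hD, ← hβ, ← hmb, hq43]
    -- kinetic and direct terms
    have e1 : A * (q ^ 2 * s ^ 2 * T) = q ^ 2 * (√A * q * T) := by
      rw [hs2]
      field_simp
      rw [sq, hsA2]
    have e2 : q ^ 4 * (s ^ 2)⁻¹ * D = q ^ 2 * (√A * q * D) := by
      rw [hs2]
      field_simp
    have e3 : √A * q * (T + D / 2) ≤ Ce * β * Q / 2 * v ^ 2 := by
      have f1 : T + D / 2 ≤ B := by
        rw [hB]
        linarith
      have f2 : √A * v * B ≤ Ce * β * Q / 2 := by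
        have f3 : √A * v ≤ δ * Ce := by
          have := mul_le_mul_of_nonneg_left hv2 hsA.le
          rwa [mul_div_cancel₀ _ hsA.ne'] at this
        calc √A * v * B ≤ δ * Ce * B := mul_le_mul_of_nonneg_right f3 hB0.le
          _ = Ce * β * Q / 2 := by
            rw [hδ]
            field_simp
      calc √A * q * (T + D / 2) ≤ √A * q * B := mul_le_mul_of_nonneg_left f1 (by positivity)
        _ = √A * v * B * v ^ 2 := by
            rw [hq]
            ring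
        _ ≤ _ := mul_le_mul_of_nonneg_right f2 (by positivity)
    have e4 : W / A ≤ Ce * β * Q / (2 * mb) * v ^ 2 := by
      rw [div_le_iff₀ hA]
      rcases le_total (√r) (δ * Ce / √A) with h5 | h5
      · have h6 : v ^ 2 = r := by
          rw [hv, min_eq_left h5, Real.sq_sqrt hr0.le]
        rw [h6, hrκ]
        have h7 : c ≤ β * Q / (2 * mb) * κ₀ :=
          mul_le_mul_of_nonneg_left (min_le_left _ _) (by positivity)
        have h8 : 0 ≤ A * Ce * (Ce / γ) ^ (1 / (3 * p - 4)) := by positivity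
        calc W ≤ c * (A * Ce * (Ce / γ) ^ (1 / (3 * p - 4))) := hW2
          _ ≤ β * Q / (2 * mb) * κ₀ * (A * Ce * (Ce / γ) ^ (1 / (3 * p - 4))) :=
              mul_le_mul_of_nonneg_right h7 h8
          _ = _ := by ring
      · have h6 : v ^ 2 = (δ * Ce) ^ 2 / A := by
          rw [hv, min_eq_right h5, div_pow, Real.sq_sqrt hA.le]
        rw [h6]
        have h7 : c ≤ β * Q / (2 * mb) * δ ^ 2 :=
          mul_le_mul_of_nonneg_left (min_le_right _ _) (by positivity)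
        calc W ≤ c * Ce ^ 3 := hW1
          _ ≤ β * Q / (2 * mb) * δ ^ 2 * Ce ^ 3 := mul_le_mul_of_nonneg_right h7 (by positivity)
          _ = _ := by
            field_simp
    have e5 : (s ^ 3)⁻¹ * (A * (q ^ 2 * s ^ 2 * T) - Ce * β * (q ^ 2 * v ^ 2 * Q)
          + 1 / 2 * (q ^ 4 * (s ^ 2)⁻¹ * D))
        = (s ^ 3)⁻¹ * q ^ 2 * (√A * q * (T + D / 2) - Ce * β * Q * v ^ 2) := by
      rw [e1, e2]
      ring
    rw [e5]
    have e6 : √A * q * (T + D / 2) - Ce * β * Q * v ^ 2 ≤ -(W / A) * mb := by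
      have g1 : W / A * mb ≤ Ce * β * Q / 2 * v ^ 2 := by
        calc W / A * mb ≤ Ce * β * Q / (2 * mb) * v ^ 2 * mb :=
              mul_le_mul_of_nonneg_right e4 hmb0.le
          _ = _ := by field_simp
      linarith
    calc (s ^ 3)⁻¹ * q ^ 2 * (√A * q * (T + D / 2) - Ce * β * Q * v ^ 2)
        ≤ (s ^ 3)⁻¹ * q ^ 2 * (-(W / A) * mb) := mul_le_mul_of_nonneg_left e6 (by positivity)
      _ = _ := by ring

/-! ### The final statement -/

lemma formSet_nonempty {A p : ℝ} (hp : 4 / 3 < p) {k : ℕ} (z : Fin k → ℝ) (R : Fin k → R3) :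
    (formSet A p z R).Nonempty := by
  obtain ⟨e, ρ, g, h, hi, hm, -⟩ := energy_nonempty (A := 1) (γ := 1) (Ce := 1) (z := z) (R := R)
    hp zero_le_one
  exact ⟨_, ρ, g, h, hi, hm, rfl⟩

/-- **Non-convexity of the TFDW energy for every system of nuclei.**
For every `p > 4/3` there is `c > 0` such that for all `A, γ, C_e > 0` and all nuclear data
(`Z` is the total charge):
* every `E(lam)`, `lam ≥ 0`, is a genuine finite infimum;
* the lowest one-electron energy in the field of the nuclei is a finite infimum `≥ -Z²/(4A)`;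
* if `E` is convex on `[0,∞)`, then the lowest one-electron energy is at most the energy per
  electron of every density in the absence of the nuclei;
* `E` is not convex if minus the lowest one-electron energy is less than both `c C_e³/A` and
  `c C_e (C_e/γ)^{1/(3p-4)}`;
* `E` is not convex if `Z² ≤ c C_e³` and `Z² ≤ c A C_e (C_e/γ)^{1/(3p-4)}`.
Consequently for all `A, γ > 0`, `p > 4/3` and EVERY system of nuclei (any number, charges and
positions) `E` is not convex for all large `C_e`. -/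
theorem result :
    (∀ p : ℝ, 4 / 3 < p → ∃ c : ℝ, 0 < c ∧
      ∀ (A γ Ce : ℝ), 0 < A → 0 < γ → 0 < Ce →
      ∀ (k : ℕ), 1 ≤ k → ∀ (z : Fin k → ℝ) (R : Fin k → EuclideanSpace ℝ (Fin 3)),
        (∀ j, 0 < z j) → Function.Injective R →
        (∀ lam : ℝ, 0 ≤ lam → (energySet A γ Ce p z R lam).Nonempty ∧
          BddBelow (energySet A γ Ce p z R lam)) ∧
        ((formSet A p z R).Nonempty ∧ BddBelow (formSet A p z R) ∧
          -((∑ j, z j) ^ 2 / (4 * A)) ≤ oneElectron A p z R) ∧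
        (ConvexOn ℝ (Set.Ici 0) (E A γ Ce p z R) →
          ∀ (ρ : EuclideanSpace ℝ (Fin 3) → ℝ)
            (g : EuclideanSpace ℝ (Fin 3) → EuclideanSpace ℝ (Fin 3)),
            Admissible p ρ g → Integrable ρ → 0 < ∫ x, ρ x →
            oneElectron A p z R ≤ freeEnergy A γ Ce p ρ g / ∫ x, ρ x) ∧
        (-oneElectron A p z R < c * (Ce ^ 3 / A) →
          -oneElectron A p z R < c * (Ce * (Ce / γ) ^ (1 / (3 * p - 4))) →
          ¬ ConvexOn ℝ (Set.Ici 0) (E A γ Ce p z R)) ∧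
        ((∑ j, z j) ^ 2 ≤ c * Ce ^ 3 →
          (∑ j, z j) ^ 2 ≤ c * (A * Ce * (Ce / γ) ^ (1 / (3 * p - 4))) →
          ¬ ConvexOn ℝ (Set.Ici 0) (E A γ Ce p z R))) ∧
    (∀ (A γ p : ℝ), 0 < A → 0 < γ → 4 / 3 < p →
      ∀ (k : ℕ), 1 ≤ k → ∀ (z : Fin k → ℝ) (R : Fin k → EuclideanSpace ℝ (Fin 3)),
        (∀ j, 0 < z j) → Function.Injective R →
        ∃ C₀ : ℝ, 0 < C₀ ∧ ∀ Ce : ℝ, C₀ ≤ Ce →
          ¬ ConvexOn ℝ (Set.Ici 0) (E A γ Ce p z R)) := by
  have main : ∀ p : ℝ, 4 / 3 < p → ∃ c : ℝ, 0 < c ∧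
      ∀ (A γ Ce : ℝ), 0 < A → 0 < γ → 0 < Ce →
      ∀ (k : ℕ), 1 ≤ k → ∀ (z : Fin k → ℝ) (R : Fin k → EuclideanSpace ℝ (Fin 3)),
        (∀ j, 0 < z j) → Function.Injective R →
        (∀ lam : ℝ, 0 ≤ lam → (energySet A γ Ce p z R lam).Nonempty ∧
          BddBelow (energySet A γ Ce p z R lam)) ∧
        ((formSet A p z R).Nonempty ∧ BddBelow (formSet A p z R) ∧
          -((∑ j, z j) ^ 2 / (4 * A)) ≤ oneElectron A p z R) ∧
        (ConvexOn ℝ (Set.Ici 0) (E A γ Ce p z R) →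
          ∀ (ρ : EuclideanSpace ℝ (Fin 3) → ℝ)
            (g : EuclideanSpace ℝ (Fin 3) → EuclideanSpace ℝ (Fin 3)),
            Admissible p ρ g → Integrable ρ → 0 < ∫ x, ρ x →
            oneElectron A p z R ≤ freeEnergy A γ Ce p ρ g / ∫ x, ρ x) ∧
        (-oneElectron A p z R < c * (Ce ^ 3 / A) →
          -oneElectron A p z R < c * (Ce * (Ce / γ) ^ (1 / (3 * p - 4))) →
          ¬ ConvexOn ℝ (Set.Ici 0) (E A γ Ce p z R)) ∧
        ((∑ j, z j) ^ 2 ≤ c * Ce ^ 3 →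
          (∑ j, z j) ^ 2 ≤ c * (A * Ce * (Ce / γ) ^ (1 / (3 * p - 4))) →
          ¬ ConvexOn ℝ (Set.Ici 0) (E A γ Ce p z R)) := by
    intro p hp
    obtain ⟨c, hc, hfree⟩ := exists_free hp
    refine ⟨c, hc, ?_⟩
    intro A γ Ce hA hγ hCe k hk z R hz hR
    have hcrit : ConvexOn ℝ (Set.Ici 0) (E A γ Ce p z R) →
        ∀ (ρ : R3 → ℝ) (g : R3 → R3), Admissible p ρ g → Integrable ρ → 0 < ∫ x, ρ x →
          oneElectron A p z R ≤ freeEnergy A γ Ce p ρ g / ∫ x, ρ x := by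
      intro hconv ρ g h hi hm
      rw [le_div_iff₀ hm]
      exact criterion hA hγ hCe hp hk hz hconv h hi hm
    have hone : -((∑ j, z j) ^ 2 / (4 * A)) ≤ oneElectron A p z R :=
      le_csInf (formSet_nonempty hp z R) (formSet_bdd hp hk hz hA)
    have hpow : 0 < (Ce / γ) ^ (1 / (3 * p - 4)) := Real.rpow_pos_of_pos (by positivity) _
    have hquant : -oneElectron A p z R < c * (Ce ^ 3 / A) →
          -oneElectron A p z R < c * (Ce * (Ce / γ) ^ (1 / (3 * p - 4))) →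
          ¬ ConvexOn ℝ (Set.Ici 0) (E A γ Ce p z R) := by
      intro h1 h2 hconv
      set W := min (c * Ce ^ 3) (c * (A * Ce * (Ce / γ) ^ (1 / (3 * p - 4)))) with hW
      obtain ⟨ρ, g, h, hi, hm, hle⟩ := hfree A γ Ce W hA hγ hCe (min_le_left _ _)
        (min_le_right _ _)
      have h3 := hcrit hconv ρ g h hi hm
      have h4 : freeEnergy A γ Ce p ρ g / ∫ x, ρ x ≤ -(W / A) := by
        rw [div_le_iff₀ hm]
        exact hle
      have h5 : -oneElectron A p z R < W / A := by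
        rw [lt_div_iff₀ hA, hW, lt_min_iff]
        refine ⟨?_, ?_⟩
        · have := mul_lt_mul_of_pos_right h1 hA
          refine this.trans_le (le_of_eq ?_)
          field_simp
        · have := mul_lt_mul_of_pos_right h2 hA
          refine this.trans_le (le_of_eq ?_)
          ring
      linarith
    refine ⟨fun lam hlam => ⟨energy_nonempty hp hlam, energy_bdd hA hγ hCe hp hk hz lam⟩,
      ⟨formSet_nonempty hp z R, ⟨_, fun e he => formSet_bdd hp hk hz hA e he⟩, hone⟩, hcrit,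
      hquant, ?_⟩
    intro h1 h2
    refine hquant ?_ ?_
    · have h3 : (∑ j, z j) ^ 2 / (4 * A) ≤ c * (Ce ^ 3 / A) / 4 := by
        rw [div_le_iff₀ (by positivity)]
        refine h1.trans (le_of_eq ?_)
        field_simp
      have h4 : 0 < c * (Ce ^ 3 / A) := by positivity
      linarith
    · have h3 : (∑ j, z j) ^ 2 / (4 * A) ≤ c * (Ce * (Ce / γ) ^ (1 / (3 * p - 4))) / 4 := by
        rw [div_le_iff₀ (by positivity)]
        refine h2.trans (le_of_eq ?_)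
        ring
      have h4 : 0 < c * (Ce * (Ce / γ) ^ (1 / (3 * p - 4))) := by positivity
      linarith
  refine ⟨main, ?_⟩
  intro A γ p hA hγ hp k hk z R hz hR
  obtain ⟨c, hc, hmain⟩ := main p hp
  set Z := ∑ j, z j with hZ
  have hp34 : 0 < 3 * p - 4 := by linarith
  refine ⟨max (max 1 γ) (max (Z ^ 2 / c) (Z ^ 2 / (c * A))),
    lt_max_of_lt_left (lt_max_of_lt_left one_pos), ?_⟩
  intro Ce hCe
  have h1 : 1 ≤ Ce := ((le_max_left _ _).trans (le_max_left _ _)).trans hCe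
  have h2 : γ ≤ Ce := ((le_max_right _ _).trans (le_max_left _ _)).trans hCe
  have h3 : Z ^ 2 / c ≤ Ce := ((le_max_left _ _).trans (le_max_right _ _)).trans hCe
  have h4 : Z ^ 2 / (c * A) ≤ Ce := ((le_max_right _ _).trans (le_max_right _ _)).trans hCe
  have hCe0 : 0 < Ce := by linarith
  refine (hmain A γ Ce hA hγ hCe0 k hk z R hz hR).2.2.2.2 ?_ ?_
  · rw [← hZ]
    rw [div_le_iff₀ hc] at h3
    have h5 : Ce ≤ Ce ^ 3 := le_self_pow₀ h1 (by norm_num)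
    nlinarith
  · rw [← hZ]
    rw [div_le_iff₀ (by positivity)] at h4
    have h5 : 1 ≤ (Ce / γ) ^ (1 / (3 * p - 4)) := by
      refine Real.one_le_rpow ?_ (by positivity)
      rwa [le_div_iff₀ hγ, one_mul]
    have h6 : c * (A * Ce) ≤ c * (A * Ce * (Ce / γ) ^ (1 / (3 * p - 4))) :=
      mul_le_mul_of_nonneg_left (le_mul_of_one_le_right (by positivity) h5) hc.le
    linarith

end Pool.Agent.Results.MP_a69704_mp.NotConvexAllNuclei
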